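import Pool.Agent.N204.HR.Stm3

/-!
# Numerical equivalence for the generated classes: the parts
-/

set_option linter.unusedSectionVars false

open CategoryTheory AlgebraicGeometry TensorProduct

universe u

namespace Pool.Agent.N204.HJ

open Module
open Pool.Agent.H914 Pool.Agent.H914.VarClass Pool.Agent.H914.VarClass.Obj
  Pool.Agent.H914.WeilCohomology
open Pool.Agent.Y133.Half (pw)
open Pool.Agent.N996.BP (IsCoordinateMap)
open Pool.Agent.N204.HR (FrobK)

/-- The operator `1 ⊗ u` on the cohomology of `X ^ (n + 2) = X ^ (n + 1) × X`. -/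
noncomputable def lastOp {k : Type u} [Field k] {𝒱 : VarClass k} {ops : CycleOps 𝒱}
    (W : WeilCohomology.{u, 0} ops) (X : 𝒱.Obj) (n : ℕ) (u : Module.End W.K (W.H X)) :
    W.H (pw X (n + 1)) → W.H (pw X (n + 1)) :=
  fun x => extOp W (1 : Module.End W.K (W.H (pw X n))) u (show W.H ((pw X n).prod X) from x)

/-- The class of the graph of `u`. -/
noncomputable def graph {k : Type u} [Field k] {𝒱 : VarClass k} {ops : CycleOps 𝒱}
    (W : WeilCohomology.{u, 0} ops) (X : 𝒱.Obj) (u : Module.End W.K (W.H X)) : W.H (pw X 1) :=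
  extOp W (1 : Module.End W.K (W.H X)) u (W.push (diag X) 1)

/-- **Task NA** (the operator `1 ⊗ u` is given by the class of the graph). -/
def S_NA : Prop := ∀ (k : Type u) [Field k] (𝒱 : VarClass k) (ops : CycleOps 𝒱)
  (W : WeilCohomology.{u, 0} ops) (X : 𝒱.Obj) (n : ℕ),
  ∃ (f g : pw X (n + 2) ⟶ pw X (n + 1)) (h : pw X (n + 2) ⟶ pw X 1),
    IsCoordinateMap f ∧ IsCoordinateMap g ∧ IsCoordinateMap h ∧
    ∀ (i j : ℕ), ∀ z ∈ W.gr (pw X (n + 1)) (2 * i), ∀ x ∈ W.gr (pw X (n + 1)) (2 * j),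
      ∀ u : Module.End W.K (W.H X), (∀ i, ∀ a ∈ W.gr X i, u a ∈ W.gr X i) →
        W.tr (pw X (n + 1)) (z * lastOp W X n u x) =
          W.tr (pw X (n + 2)) (W.map h (graph W X u) * (W.map f z * W.map g x))

/-- **Task NB** (nilpotent polynomials in the Frobenius are numerically trivial). -/
def S_NB : Prop := ∀ (k : Type u) [Field k] (𝒱 : VarClass k) (ops : CycleOps 𝒱)
  (W : WeilCohomology.{u, 0} ops) (X : 𝒱.Obj) (q : ℕ) (Φ : ∀ n, W.H (pw X n) → W.H (pw X n)),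
  FrobK W X q Φ → ∀ (F : Module.End W.K (W.H X)), (∀ x, F x = Φ 0 x) →
  ∀ c ∈ W.gr (pw X 1) (2 * X.dim), ∀ m : ℕ, 0 < m →
    (Φ 1)^[m] c = (q : W.K) ^ (X.dim * m) • c →
    ∀ P : Polynomial W.K, IsNilpotent (Polynomial.aeval F P) →
      W.tr (pw X 1) (c * graph W X (Polynomial.aeval F P)) = 0

/-- **Task NC** (two coordinate maps whose pull-backs generate the cohomology). -/
def S_NC : Prop := ∀ (k : Type u) [Field k] (𝒱 : VarClass k) (ops : CycleOps 𝒱)
  (W : WeilCohomology.{u, 0} ops) (X : 𝒱.Obj) (n : ℕ) (a : pw X (n + 1) ⟶ pw X n)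
  (b : pw X (n + 1) ⟶ pw X 0), IsCoordinateMap a → IsCoordinateMap b →
  (∀ P : Submodule W.K (W.H (pw X (n + 1))), (∀ x y, W.map a x * W.map b y ∈ P) → P = ⊤) →
  ∃ (c : W.K) (g : pw X (n + 1) ⟶ pw X (n + 1)), c ≠ 0 ∧ IsCoordinateMap g ∧
    ∀ u : Module.End W.K (W.H X),
      (∃ t : Module.End W.K (W.H (pw X (n + 1))), ∀ x y,
        t (W.map a x * W.map b y) = W.map a x * W.map b (u y)) ∧
      ∀ t : Module.End W.K (W.H (pw X (n + 1))),
        (∀ x y, t (W.map a x * W.map b y) = W.map a x * W.map b (u y)) →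
        ∀ z x z₁ x₁, (∀ y, W.tr (pw X (n + 1)) (y * z₁) = W.tr (pw X (n + 1)) (W.map g y * z)) →
          (∀ y, W.tr (pw X (n + 1)) (y * x₁) = W.tr (pw X (n + 1)) (W.map g y * x)) →
          W.tr (pw X (n + 1)) (z₁ * lastOp W X n u x₁) = c * W.tr (pw X (n + 1)) (z * t x)

end Pool.Agent.N204.HJ
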