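import Pool.Agent.N204.HJ.Frob
import Pool.Agent.N204.HJ.Stm2
import Pool.Agent.N204.HR.Stm5

/-!
# Generated classes and numerical equivalence
-/

set_option linter.unusedSectionVars false

open CategoryTheory AlgebraicGeometry TensorProduct

universe u

namespace Pool.Agent.N204.HJ

open Module
open Pool.Agent.H914 Pool.Agent.H914.VarClass Pool.Agent.H914.VarClass.Obj
  Pool.Agent.H914.WeilCohomology
open Pool.Agent.Y133.Half (pw)
open Pool.Agent.Y121.AHS
open Pool.Agent.N996.BP (IsCoordinateMap RForm)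
open Pool.Agent.N204.RD.Raw (Coh IsLin IsLinear coh ap InSpan IsSub)
open Pool.Agent.N204.HR.Raw (Gen IsFrobenius ext)
open Pool.Agent.N204.HR (FrobK S_F2 S_F5 S_GD frobK)

variable {k : Type u} [Field k] {𝒱 : VarClass k} {ops : CycleOps 𝒱}
  {T : HodgeTheory ops} {X : 𝒱.Obj} {ψ : RForm T.W X} {E : Type} [Field E]
  [Algebra T.W.K E] {q : ℕ} {φ φ' : ∀ n, (coh T E ψ).H n → (coh T E ψ).H n}
  {S : ∀ n : ℕ, ℕ → Set (T.W.H (pw X n))}


lemma span_top {n : ℕ} {a : pw X (n + 1) ⟶ pw X n} {b : pw X (n + 1) ⟶ pw X 0}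
    (h : ∀ x, InSpan (coh T E ψ) (n + 1) {z | ∃ s t, z = (coh T E ψ).mul (n + 1)
      (mapL (W := T.W) (L := E) a s) (mapL (W := T.W) (L := E) b t)} x)
    (P : Submodule (baseW T.W E).K ((baseW T.W E).H (pw X (n + 1))))
    (hP : ∀ x y, (baseW T.W E).map a x * (baseW T.W E).map b y ∈ P) : P = ⊤ := by
  rw [eq_top_iff]
  intro x _
  refine h x {z | z ∈ P} ⟨P.zero_mem, fun x hx y hy => P.add_mem hx hy,
    fun c x hx => P.smul_mem c hx⟩ ?_
  rintro _ ⟨s, t, rfl⟩
  exact hP s t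

/-- Linear maps which agree on the products agree. -/
lemma eq_of_span {n : ℕ} {a : pw X (n + 1) ⟶ pw X n} {b : pw X (n + 1) ⟶ pw X 0}
    (h : ∀ P : Submodule (baseW T.W E).K ((baseW T.W E).H (pw X (n + 1))),
      (∀ x y, (baseW T.W E).map a x * (baseW T.W E).map b y ∈ P) → P = ⊤)
    {t t' : Module.End (baseW T.W E).K ((baseW T.W E).H (pw X (n + 1)))}
    (ht : ∀ x y, t ((baseW T.W E).map a x * (baseW T.W E).map b y) = t' ((baseW T.W E).map a x * (baseW T.W E).map b y)) : t = t' := by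
  have h1 := h (LinearMap.eqLocus t t') (fun x y => ht x y)
  apply LinearMap.ext
  intro x
  have h2 : x ∈ LinearMap.eqLocus t t' := by rw [h1]; trivial
  exact h2

lemma lin_aeval_mem {n j : ℕ} {t : Module.End (baseW T.W E).K ((baseW T.W E).H (pw X n))}
    (ht : ∀ x : (baseW T.W E).H (pw X n), Gen (coh T E ψ) (φ 0) (ext T E S) n j x →
      Gen (coh T E ψ) (φ 0) (ext T E S) n j (t x))
    (P : Polynomial ℚ) {x : (baseW T.W E).H (pw X n)}
    (hx : Gen (coh T E ψ) (φ 0) (ext T E S) n j x) :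
    Gen (coh T E ψ) (φ 0) (ext T E S) n j
      (Polynomial.aeval t (P.map (algebraMap ℚ (baseW T.W E).K)) x) := by
  have hp : ∀ r : ℕ, Gen (coh T E ψ) (φ 0) (ext T E S) n j ((t ^ r) x) := by
    intro r
    induction r with
    | zero => exact hx
    | succ r ih =>
      rw [pow_succ', Module.End.mul_apply]
      exact ht _ ih
  have hz : Gen (coh T E ψ) (φ 0) (ext T E S) n j (0 : (baseW T.W E).H (pw X n)) := by
    have h1 := Gen.smul (0 : ℚ) hx
    have h2 : (coh T E ψ).smul n ((0 : ℚ) : E) x = (0 : (baseW T.W E).H (pw X n)) := by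
      rw [Rat.cast_zero]
      exact zero_smul E (show HL T.W E (pw X n) from x)
    rw [h2] at h1
    exact h1
  have hs : ∀ s : Finset ℕ, Gen (coh T E ψ) (φ 0) (ext T E S) n j
      (show (baseW T.W E).H (pw X n) from ∑ r ∈ s, (((P.coeff r : ℚ) : (baseW T.W E).K) • ((t ^ r) x))) := by
    intro s
    classical
    induction s using Finset.induction_on with
    | empty => exact hz
    | insert a s ha ih =>
      have h5 : (∑ r ∈ insert a s, (((P.coeff r : ℚ) : (baseW T.W E).K) • ((t ^ r) x))) =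
        (((P.coeff a : ℚ) : (baseW T.W E).K) • ((t ^ a) x)) +
          ∑ r ∈ s, (((P.coeff r : ℚ) : (baseW T.W E).K) • ((t ^ r) x)) := Finset.sum_insert ha
      rw [h5]
      exact Gen.add (Gen.smul (P.coeff a) (hp a)) ih
  rw [Polynomial.aeval_eq_sum_range' (Nat.lt_succ_of_le Polynomial.natDegree_map_le),
    LinearMap.sum_apply]
  have h3 := hs (Finset.range (P.natDegree + 1))
  have h6 : (∑ r ∈ Finset.range (P.natDegree + 1), (((P.coeff r : ℚ) : (baseW T.W E).K) • ((t ^ r) x))) =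
      ∑ r ∈ Finset.range (P.natDegree + 1),
        ((P.map (algebraMap ℚ (baseW T.W E).K)).coeff r • t ^ r) x := by
    refine Finset.sum_congr rfl fun r _ => ?_
    rw [LinearMap.smul_apply, Polynomial.coeff_map, eq_ratCast]
  rw [h6] at h3
  exact h3

/-- The data of the Frobenius and its semisimple part. -/
structure Pair (hF : IsFrobenius (coh T E ψ) q φ (ext T E S))
    (hF' : IsFrobenius (coh T E ψ) q φ' (ext T E S)) (P : Polynomial ℚ) : Prop where
  eq : Lin (frobK hF') 0 = Polynomial.aeval (Lin (frobK hF) 0) (P.map (algebraMap ℚ (baseW T.W E).K))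
  nil : IsNilpotent (Lin (frobK hF) 0 - Lin (frobK hF') 0)

variable {hF : IsFrobenius (coh T E ψ) q φ (ext T E S)}
  {hF' : IsFrobenius (coh T E ψ) q φ' (ext T E S)} {P : Polynomial ℚ}

/-- The classes generated with the semisimple part are generated with the Frobenius. -/
lemma gen_le (hNC : S_NC.{u}) (hp : Pair hF hF' P) {n j : ℕ} {x : (coh T E ψ).H n}
    (hx : Gen (coh T E ψ) (φ' 0) (ext T E S) n j x) :
    Gen (coh T E ψ) (φ 0) (ext T E S) n j x := by
  induction hx with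
  | base hx => exact .base hx
  | add _ _ hx hy => exact .add hx hy
  | smul r _ hx => exact .smul r hx
  | mul _ _ hx hy => exact .mul hx hy
  | pull hf _ hx => exact .pull hf hx
  | push hf _ htr hij hx => exact .push hf hx htr hij
  | @frob n j x p q t hp1 hq1 hsp ht hpq _ hx =>
    obtain ⟨a, ha, rfl⟩ := hp1
    obtain ⟨b, hb, rfl⟩ := hq1
    have htop := span_top hsp
    obtain ⟨c, g, -, -, hu⟩ := hNC k 𝒱 ops (baseW T.W E) X n a b ha hb htop
    obtain ⟨⟨t₀, ht₀⟩, -⟩ := hu (Lin (frobK hF) 0)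
    obtain ⟨tl, htl⟩ : ∃ tl : Module.End (baseW T.W E).K ((baseW T.W E).H (pw X (n + 1))), ∀ x, tl x = t x :=
      ⟨{ toFun := t, map_add' := ht.1, map_smul' := ht.2 }, fun _ => rfl⟩
    have hpow : ∀ (r : ℕ) x y, (t₀ ^ r) ((baseW T.W E).map a x * (baseW T.W E).map b y) =
        (baseW T.W E).map a x * (baseW T.W E).map b (((Lin (frobK hF) 0) ^ r) y) := by
      intro r
      induction r with
      | zero => intro x y; rfl
      | succ r ih =>
        intro x y
        have e : ((Lin (frobK hF) 0) ^ (r + 1)) y =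
            (Lin (frobK hF) 0) (((Lin (frobK hF) 0) ^ r) y) := by
          rw [pow_succ']
          rfl
        rw [pow_succ', Module.End.mul_apply, ih, ht₀]
        exact congrArg (fun w => (baseW T.W E).map a x * (baseW T.W E).map b w) e.symm
    have h1 : tl = Polynomial.aeval t₀ (P.map (algebraMap ℚ (baseW T.W E).K)) := by
      refine eq_of_span htop ?_
      intro x y
      have h2 : tl ((baseW T.W E).map a x * (baseW T.W E).map b y) = (baseW T.W E).map a x * (baseW T.W E).map b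
          ((Lin (frobK hF') 0) y) := (htl _).trans (hpq x y)
      rw [h2, hp.eq, Polynomial.aeval_eq_sum_range, Polynomial.aeval_eq_sum_range,
        LinearMap.sum_apply, LinearMap.sum_apply, map_sum, Finset.mul_sum]
      refine Finset.sum_congr rfl fun r _ => ?_
      rw [LinearMap.smul_apply, LinearMap.smul_apply, hpow, map_smul, mul_smul_comm]
    have h3 : t x = Polynomial.aeval t₀ (P.map (algebraMap ℚ (baseW T.W E).K)) x := by
      rw [← h1]
      exact (htl x).symm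
    rw [h3]
    refine lin_aeval_mem ?_ P hx
    intro y hy
    exact Gen.frob (O := coh T E ψ) (p := mapL (W := T.W) (L := E) a)
      (q := mapL (W := T.W) (L := E) b) (t := fun y => t₀ y) ⟨a, ha, rfl⟩ ⟨b, hb, rfl⟩ hsp
      ⟨fun x y => map_add t₀ (show (baseW T.W E).H (pw X (n + 1)) from x) y,
      fun c x => map_smul t₀ (show (baseW T.W E).K from c) (show (baseW T.W E).H (pw X (n + 1)) from x)⟩ ht₀ hy

section Aux

variable {W : WeilCohomology.{u, 0} ops} {Y Z : 𝒱.Obj}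

lemma push_tr (g : Y ⟶ Z) {i : ℕ} (y : W.H Z) {z : W.H Y} (hz : z ∈ W.gr Y (2 * i)) :
    W.tr Z (y * W.push g z) = W.tr Y (W.map g y * z) := by
  have h1 : z ∈ Pool.Agent.Y133.Half.PH W Y 0 := Pool.Agent.Y133.Half.PH.of' (by omega) hz
  have h2 := Pool.Agent.Y133.Half.PH.even_comm (Pool.Agent.Y133.Half.PH.push g h1) y
  rw [← h2, W.tr_push, W.even_comm hz]

lemma mul_aux {x y x' y' z : W.H Y} (cx : ∀ w, x * w = w * x) (cx' : ∀ w, x' * w = w * x')
    (e1 : W.tr Y ((z * x) * y) = W.tr Y ((z * x) * y'))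
    (e2 : W.tr Y ((z * y') * x) = W.tr Y ((z * y') * x')) :
    W.tr Y (z * (x * y)) = W.tr Y (z * (x' * y')) := by
  rw [← mul_assoc, e1, mul_assoc, cx, ← mul_assoc, e2, mul_assoc, cx']

lemma pull_aux (g : Y ⟶ Z) {x x' : W.H Z} {i j : ℕ} {z : W.H Y} (hz : z ∈ W.gr Y (2 * i))
    (hx : x ∈ W.gr Z (2 * j)) (hx' : x' ∈ W.gr Z (2 * j))
    (e : W.tr Z (W.push g z * x) = W.tr Z (W.push g z * x')) :
    W.tr Y (z * W.map g x) = W.tr Y (z * W.map g x') := by
  rw [← W.tr_push, ← W.tr_push, e]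

lemma add_aux {x y x' y' z : W.H Y} (e1 : W.tr Y (z * x) = W.tr Y (z * x'))
    (e2 : W.tr Y (z * y) = W.tr Y (z * y')) :
    W.tr Y (z * (x + y)) = W.tr Y (z * (x' + y')) := by
  rw [mul_add, mul_add, map_add, map_add, e1, e2]

lemma smul_aux (r : W.K) {x x' z : W.H Y} (e1 : W.tr Y (z * x) = W.tr Y (z * x')) :
    W.tr Y (z * (r • x)) = W.tr Y (z * (r • x')) := by
  rw [mul_smul_comm, mul_smul_comm, map_smul, map_smul, e1]

end Aux

/-- The classes `x` and `x'` have the same intersection numbers with the generated classes. -/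
def NE (φ : (coh T E ψ).H 0 → (coh T E ψ).H 0) (S : ∀ n : ℕ, ℕ → Set (T.W.H (pw X n))) (n j : ℕ)
    (x x' : (baseW T.W E).H (pw X n)) : Prop :=
  ∀ i, i + j = (pw X n).dim → ∀ z : (baseW T.W E).H (pw X n), Gen (coh T E ψ) φ (ext T E S) n i z →
    (baseW T.W E).tr (pw X n) (z * x) = (baseW T.W E).tr (pw X n) (z * x')

/-- **The reduction of a generated class.** -/
theorem dec (hNA : S_NA.{u}) (hNB : S_NB.{u}) (hNC : S_NC.{u}) (hGD : S_GD.{u}) (hF2 : S_F2.{u})
    (hF5 : S_F5.{u}) (hS : ∀ n j, ∀ c ∈ S n j, c ∈ T.W.gr (pw X n) (2 * j))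
    (h1 : Gen (coh T E ψ) (φ 0) (ext T E S) 0 0 (emL T.W E (1 : T.W.H X)))
    (hp : Pair hF hF' P) {n j : ℕ} {x : (coh T E ψ).H n}
    (hx : Gen (coh T E ψ) (φ 0) (ext T E S) n j x) :
    ∃ x', Gen (coh T E ψ) (φ' 0) (ext T E S) n j x' ∧ NE (φ 0) S n j x x' := by
  have hgd : ∀ {n j : ℕ} {x : (baseW T.W E).H (pw X n)}, Gen (coh T E ψ) (φ 0) (ext T E S) n j x →
      x ∈ (baseW T.W E).gr (pw X n) (2 * j) := fun {n j x} hx =>
    hGD k 𝒱 ops T X ψ E (φ 0) S hS (hF.lin 0) (hF.deg 0) n j x hx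
  have hle : ∀ {n j : ℕ} {x : (baseW T.W E).H (pw X n)}, Gen (coh T E ψ) (φ' 0) (ext T E S) n j x →
      Gen (coh T E ψ) (φ 0) (ext T E S) n j x := fun hx => gen_le hNC hp hx
  have hev : ∀ {n j : ℕ} {x : (baseW T.W E).H (pw X n)}, Gen (coh T E ψ) (φ 0) (ext T E S) n j x →
      ∀ y : (baseW T.W E).H (pw X n), x * y = y * x :=
    fun {n j x} hx y => (baseW T.W E).even_comm (hgd hx) y
  have mkp : ∀ {n m i j : ℕ} {g : pw X m ⟶ pw X n}, IsCoordinateMap g →
      ∀ {z : (baseW T.W E).H (pw X m)}, Gen (coh T E ψ) (φ 0) (ext T E S) m j z →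
      j + (pw X n).dim = i + (pw X m).dim →
      Gen (coh T E ψ) (φ 0) (ext T E S) n i ((baseW T.W E).push g z) := by
    intro n m i j g hg z hz hij
    exact Gen.push (O := coh T E ψ) (f := mapL (W := T.W) (L := E) g) ⟨g, hg, rfl⟩ hz
      (fun y => push_tr g y (hgd hz)) hij
  have mkq : ∀ {n m j : ℕ} {g : pw X m ⟶ pw X n}, IsCoordinateMap g →
      ∀ {z : (baseW T.W E).H (pw X n)}, Gen (coh T E ψ) (φ 0) (ext T E S) n j z →
      Gen (coh T E ψ) (φ 0) (ext T E S) m j ((baseW T.W E).map g z) := by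
    intro n m j g hg z hz
    exact Gen.pull (O := coh T E ψ) (f := mapL (W := T.W) (L := E) g) ⟨g, hg, rfl⟩ hz
  induction hx with
  | base hx => exact ⟨_, .base hx, fun _ _ _ _ => rfl⟩
  | @add n j x y _ _ hx hy =>
    obtain ⟨x', hx1, hx2⟩ := hx
    obtain ⟨y', hy1, hy2⟩ := hy
    exact ⟨_, .add hx1 hy1, fun i hi z hz => add_aux (hx2 i hi z hz) (hy2 i hi z hz)⟩
  | @smul n j x r _ hx =>
    obtain ⟨x', hx1, hx2⟩ := hx
    exact ⟨_, .smul r hx1, fun i hi z hz => smul_aux (r : (baseW T.W E).K) (hx2 i hi z hz)⟩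
  | @mul n i j x y hxg hyg hx hy =>
    obtain ⟨x', hx1, hx2⟩ := hx
    obtain ⟨y', hy1, hy2⟩ := hy
    refine ⟨_, .mul hx1 hy1, fun l hl z hz => mul_aux (W := baseW T.W E) (Y := pw X n) (hev hxg)
      (hev (hle hx1)) ?_ ?_⟩
    · exact hy2 (l + i) (by omega) _ (Gen.mul hz hxg)
    · exact hx2 (l + j) (by omega) _ (Gen.mul hz (hle hy1))
  | @pull n m j x f hf hxg hx =>
    obtain ⟨x', hx1, hx2⟩ := hx
    refine ⟨_, .pull hf hx1, ?_⟩
    obtain ⟨g, hg, rfl⟩ := hf
    intro i hi z hz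
    refine pull_aux (W := baseW T.W E) g (hgd hz) (hgd hxg) (hgd (hle hx1)) ?_
    by_cases hjn : j ≤ (pw X n).dim
    · exact hx2 ((pw X n).dim - j) (by omega) _ (mkp hg hz (by omega))
    · have h4 : ∀ w ∈ (baseW T.W E).gr (pw X n) (2 * j), w = 0 := by
        intro w hw
        rw [(baseW T.W E).gr_eq_bot (pw X n) (2 * j) (by omega)] at hw
        exact (Submodule.mem_bot _).1 hw
      rw [h4 x (hgd hxg), h4 x' (hgd (hle hx1))]
  | @push n m i j x y f hf hxg htr hij hx =>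
    obtain ⟨x', hx1, hx2⟩ := hx
    obtain ⟨g, hg, rfl⟩ := hf
    refine ⟨(baseW T.W E).push g x', Gen.push (O := coh T E ψ) (f := mapL (W := T.W) (L := E) g)
      ⟨g, hg, rfl⟩ hx1 (fun y => push_tr g y (hgd (hle hx1))) hij, ?_⟩
    intro l hl z hz
    have h3 := htr z
    have h4 : (coh T E ψ).dim n = (pw X n).dim := rfl
    have h5 : (coh T E ψ).dim m = (pw X m).dim := rfl
    have h6 := hx2 l (by omega) _ (mkq hg hz)
    rw [push_tr g z (hgd (hle hx1))]
    exact h3.trans h6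
  | @frob n j x p' q' t hp1 hq1 hsp ht hpq hxg hx =>
    obtain ⟨x', hx1, hx2⟩ := hx
    obtain ⟨a, ha, rfl⟩ := hp1
    obtain ⟨b, hb, rfl⟩ := hq1
    have htop := span_top hsp
    have hd1 : (pw X 1).dim = X.dim + X.dim := dim_prod X X
    have hd2 : (pw X (n + 2)).dim = (pw X (n + 1)).dim + X.dim := dim_prod _ X
    obtain ⟨c, g, hc, hg, hu⟩ := hNC k 𝒱 ops (baseW T.W E) X n a b ha hb htop
    obtain ⟨Fm, Fm', hFm, hFm', hFP, hFn⟩ : ∃ Fm Fm' : Module.End (baseW T.W E).K ((baseW T.W E).H X),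
        (∀ x : (baseW T.W E).H X, Fm x = (show (baseW T.W E).H X from φ 0 x)) ∧
        (∀ x : (baseW T.W E).H X, Fm' x = (show (baseW T.W E).H X from φ' 0 x)) ∧
        Fm' = Polynomial.aeval Fm (P.map (algebraMap ℚ (baseW T.W E).K)) ∧ IsNilpotent (Fm - Fm') :=
      ⟨Lin (frobK hF) 0, Lin (frobK hF') 0, fun _ => rfl, fun _ => rfl, hp.eq, hp.nil⟩
    obtain ⟨-, hA⟩ := hu Fm
    obtain ⟨⟨t', ht'⟩, hB⟩ := hu Fm'
    obtain ⟨tl, htl⟩ : ∃ tl : Module.End (baseW T.W E).K ((baseW T.W E).H (pw X (n + 1))), ∀ x, tl x = t x :=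
      ⟨{ toFun := t, map_add' := ht.1, map_smul' := ht.2 }, fun _ => rfl⟩
    refine ⟨t' x', Gen.frob (O := coh T E ψ) (p := mapL (W := T.W) (L := E) a)
      (q := mapL (W := T.W) (L := E) b) (t := fun y => t' y) ⟨a, ha, rfl⟩ ⟨b, hb, rfl⟩ hsp
      ⟨fun x y => map_add t' (show (baseW T.W E).H (pw X (n + 1)) from x) y,
      fun c x => map_smul t' (show (baseW T.W E).K from c) (show (baseW T.W E).H (pw X (n + 1)) from x)⟩
      (fun s r => (ht' s r).trans (congrArg (fun w => (baseW T.W E).map a s * (baseW T.W E).map b w) (hFm' r)))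
      hx1, ?_⟩
    intro i hi z hz
    have hgx' : Gen (coh T E ψ) (φ 0) (ext T E S) (n + 1) j x' := hle hx1
    have eA := hA tl (fun x y => ((htl _).trans (hpq x y)).trans
      (congrArg (fun w => (baseW T.W E).map a x * (baseW T.W E).map b w) (hFm y).symm)) z x _ _
      (fun y => push_tr g y (hgd hz)) (fun y => push_tr g y (hgd hxg))
    have eB := hB t' ht' z x' _ _
      (fun y => push_tr g y (hgd hz)) (fun y => push_tr g y (hgd hgx'))
    have hz1 : Gen (coh T E ψ) (φ 0) (ext T E S) (n + 1) i ((baseW T.W E).push g z) := mkp hg hz (by omega)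
    have hx1g : Gen (coh T E ψ) (φ 0) (ext T E S) (n + 1) j ((baseW T.W E).push g x) :=
      mkp hg hxg (by omega)
    have hx1g' : Gen (coh T E ψ) (φ 0) (ext T E S) (n + 1) j ((baseW T.W E).push g x') :=
      mkp hg hgx' (by omega)
    obtain ⟨z₁, hz₁⟩ : ∃ z₁, z₁ = (baseW T.W E).push g z := ⟨_, rfl⟩
    rw [← hz₁] at eA eB hz1
    obtain ⟨f, g₂, h, hf, hg₂, hh, hna⟩ := hNA k 𝒱 ops (baseW T.W E) X n
    have hFgr : ∀ i, ∀ a ∈ (baseW T.W E).gr X i, Fm a ∈ (baseW T.W E).gr X i := fun i a ha => by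
      rw [hFm]
      exact (frobK hF).gr 0 i a ha
    have hFgr' : ∀ i, ∀ a ∈ (baseW T.W E).gr X i, Fm' a ∈ (baseW T.W E).gr X i := fun i a ha => by
      rw [hFm']
      exact (frobK hF').gr 0 i a ha
    -- the class of the graph of the Frobenius
    have hγ : Gen (coh T E ψ) (φ 0) (ext T E S) 1 X.dim (graph (baseW T.W E) X (Fm)) := by
      have h5 := hF5 k 𝒱 ops T X ψ E q φ S hF h1 Fm hFm Polynomial.X
      have h6 : Polynomial.aeval Fm (Polynomial.X : Polynomial ℤ) = Fm := Polynomial.aeval_X Fm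
      rw [h6] at h5
      exact h5
    have e1 : (baseW T.W E).tr (pw X (n + 1)) (z₁ * lastOp (baseW T.W E) X n (Fm) ((baseW T.W E).push g x)) =
        (baseW T.W E).tr (pw X (n + 1)) (z₁ * lastOp (baseW T.W E) X n (Fm) ((baseW T.W E).push g x')) := by
      rw [hna i j _ (hgd hz1) _ (hgd hx1g) _ hFgr, hna i j _ (hgd hz1) _ (hgd hx1g') _ hFgr,
        ← mul_assoc, ← mul_assoc, ← (baseW T.W E).tr_push, ← (baseW T.W E).tr_push]
      have hv : Gen (coh T E ψ) (φ 0) (ext T E S) (n + 1) i ((baseW T.W E).push g₂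
          ((baseW T.W E).map h (graph (baseW T.W E) X (Fm)) * (baseW T.W E).map f z₁)) :=
        mkp hg₂ (Gen.mul (mkq hh hγ) (mkq hf hz1)) (by omega)
      rw [push_tr g _ (hgd hxg), push_tr g _ (hgd hgx')]
      exact hx2 i hi _ (mkq hg hv)
    -- the difference of the Frobenius and its semisimple part
    have e2 : (baseW T.W E).tr (pw X (n + 1)) (z₁ * lastOp (baseW T.W E) X n (Fm - Fm')
        ((baseW T.W E).push g x')) = 0 := by
      rw [hna i j _ (hgd hz1) _ (hgd hx1g') _ (fun i a ha => by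
        rw [LinearMap.sub_apply]
        exact Submodule.sub_mem _ (hFgr i a ha) (hFgr' i a ha))]
      have hw1 : Gen (coh T E ψ) (φ 0) (ext T E S) (n + 2) (i + j)
          ((baseW T.W E).map f z₁ * (baseW T.W E).map g₂ ((baseW T.W E).push g x')) := Gen.mul (mkq hf hz1) (mkq hg₂ hx1g')
      have hw : Gen (coh T E ψ) (φ 0) (ext T E S) 1 X.dim ((baseW T.W E).push h
          ((baseW T.W E).map f z₁ * (baseW T.W E).map g₂ ((baseW T.W E).push g x'))) := mkp hh hw1 (by omega)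
      rw [← hev hw1, ← (baseW T.W E).tr_push]
      obtain ⟨m, hm, hfix⟩ := hF2 k 𝒱 ops T X ψ E q φ S hF 1 X.dim _ hw
      have hpol : Fm - Fm' = Polynomial.aeval Fm
          (Polynomial.X - P.map (algebraMap ℚ (baseW T.W E).K)) := by
        rw [map_sub, Polynomial.aeval_X, hFP]
      rw [hpol] at hFn ⊢
      exact hNB k 𝒱 ops (baseW T.W E) X q φ (frobK hF) Fm hFm _ (hgd hw) m hm hfix _ hFn
    have e3 : (baseW T.W E).tr (pw X (n + 1)) (z₁ * lastOp (baseW T.W E) X n (Fm) ((baseW T.W E).push g x')) =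
        (baseW T.W E).tr (pw X (n + 1)) (z₁ * lastOp (baseW T.W E) X n (Fm') ((baseW T.W E).push g x')) := by
      have e4 : lastOp (baseW T.W E) X n (Fm) ((baseW T.W E).push g x') =
          lastOp (baseW T.W E) X n (Fm - Fm') ((baseW T.W E).push g x') +
            lastOp (baseW T.W E) X n (Fm') ((baseW T.W E).push g x') := by
        have e5 : Fm = (Fm - Fm') +
            Fm' := by abel
        conv_lhs => rw [e5]
        rw [lastOp, extOp_add_right]
        rfl
      rw [e4, mul_add, map_add, e2, zero_add]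
    have e6 : c * (baseW T.W E).tr (pw X (n + 1)) (z * tl x) = c * (baseW T.W E).tr (pw X (n + 1)) (z * t' x') := by
      rw [← eA, ← eB, e1, e3]
    have e7 := mul_left_cancel₀ hc e6
    have e8 : tl x = (show (baseW T.W E).H (pw X (n + 1)) from t x) := htl x
    rw [e8] at e7
    exact e7

end Pool.Agent.N204.HJ
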