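import Pool.Agent.N204.HR.Def

/-!
# The semisimple part of the Frobenius and numerical equivalence: definitions
-/

open CategoryTheory AlgebraicGeometry

universe u

namespace Pool.Agent.N204.HR.Def

variable {E : Type} [Field E] (O : Coh E)

/-- `y = P(φ) x`. -/
def IsValue (φ : O.H 0 → O.H 0) (P : Polynomial ℚ) (x y : O.H 0) : Prop :=
  ∀ l, IsLin O l →
    l y = ∑ m ∈ Finset.range (P.natDegree + 1), (P.coeff m : E) * l (φ^[m] x)

/-- `φ'` is the semisimple part of the Frobenius `φ`: it is semisimple, and there is a polynomial `P`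
with rational coefficients such that `φ' = P(φ)` and `φ - P(φ)` is nilpotent. (So `φ'` is given by an
algebraic correspondence, a rational linear combination of the graphs of the powers of the
Frobenius morphism, and it is determined by `φ`.) -/
def IsSemisimplePart (q : ℕ) (φ φ' : O.H 0 → O.H 0) : Prop :=
  Semisimple O q φ' ∧ ∃ (P : Polynomial ℚ) (m : ℕ), (∀ x, IsValue O φ P x (φ' x)) ∧
    ∀ x, IsValue O φ ((Polynomial.X - P) ^ m) x (O.zero 0)

/-- The classes `x` and `x'` of codimension `j` on `X_y ^ (n + 1)` are numerically equivalent: they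
have the same intersection numbers with the generated classes of complementary codimension. -/
def NumEquiv (φ : O.H 0 → O.H 0) (S : ∀ n : ℕ, ℕ → Set (O.H n)) (n j : ℕ) (x x' : O.H n) :
    Prop :=
  ∀ i, i + j = O.dim n → ∀ y, Gen O φ S n i y → O.tr n (O.mul n y x) = O.tr n (O.mul n y x')

/-- The class `x` of codimension `j` on `X_y ^ (n + 1)` is numerically trivial: its intersection
numbers with the generated classes of complementary codimension are zero. -/
def NumTrivial (φ : O.H 0 → O.H 0) (S : ∀ n : ℕ, ℕ → Set (O.H n)) (n j : ℕ) (x : O.H n) : Prop :=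
  ∀ i, i + j = O.dim n → ∀ y, Gen O φ S n i y → O.tr n (O.mul n y x) = 0

/-- The numerical standard conjecture of Hodge type for the generated classes on `X_y ^ (n + 1)`, of
dimension `d`, and the polarisation `L`: if `x` is a generated class of codimension `j`, `2 j ≤ d`,
which is not numerically trivial, and `L ^ (d - 2 j + 1) x` is numerically trivial, then
`(-1) ^ j tr(L ^ (d - 2 j) x x)` is a positive real number (for every embedding of the coefficients
into the complex numbers). -/
def NumHodgeType (φ : O.H 0 → O.H 0) (S : ∀ n : ℕ, ℕ → Set (O.H n)) (n : ℕ) (L : O.H n) : Prop :=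
  ∀ j x, Gen O φ S n j x → 2 * j ≤ O.dim n →
    NumTrivial O φ S n (O.dim n - j + 1) (lef O n L (O.dim n - 2 * j + 1) x) →
    ¬ NumTrivial O φ S n j x → ∀ σ : E →+* ℂ, ∃ r : ℝ, 0 < r ∧
      (-1) ^ j * σ (O.tr n (O.mul n (lef O n L (O.dim n - 2 * j) x) x)) = r

end Pool.Agent.N204.HR.Def
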