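import Pool.Agent.N204.HJ.Trans3

/-!
# The semisimple part of the Frobenius: the theorem
-/

set_option linter.unusedSectionVars false

open CategoryTheory AlgebraicGeometry TensorProduct

universe u

namespace Pool.Agent.N204.HJ

open Module
open Pool.Agent.H914 Pool.Agent.H914.VarClass Pool.Agent.H914.VarClass.Obj
  Pool.Agent.H914.WeilCohomology
open Pool.Agent.Y133.Half (pw)
open Pool.Agent.Y121.AHS
open Pool.Agent.N996.BP (IsCoordinateMap RForm IsPolarisation)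
open Pool.Agent.N204.HR

variable {k : Type u} [Field k] {𝒱 : VarClass k} {ops : CycleOps 𝒱}
  {T : HodgeTheory ops} {X : 𝒱.Obj} {E : Type} [Field E] [Algebra T.W.K E]
  {S : ∀ n : ℕ, ℕ → Set ((Def.coh T E X).H n)} {q : ℕ}
  {φ : ∀ n, (Def.coh T E X).H n → (Def.coh T E X).H n}


section Ne

variable {W : WeilCohomology.{u, 0} ops} {Y : 𝒱.Obj}

lemma lef_eq (L x : W.H Y) (r : ℕ) : (fun y => L * y)^[r] x = L ^ r * x := by
  induction r generalizing x with
  | zero => rw [pow_zero, one_mul]; rfl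
  | succ r ih => rw [Function.iterate_succ_apply, ih, pow_succ, mul_assoc]

lemma num_key (G G' : ℕ → W.H Y → Prop) (hle : ∀ j x, G' j x → G j x)
    (hgr : ∀ j x, G j x → x ∈ W.gr Y (2 * j)) (L : W.H Y) (hL : L ∈ W.gr Y (2 * 1))
    (hGL : ∀ r j x, G j x → G (r + j) (L ^ r * x))
    (hGL' : ∀ r j x, G' j x → G' (r + j) (L ^ r * x)) {j : ℕ} {x x' : W.H Y} (hx : G j x)
    (hx' : G' j x')
    (hne : ∀ i, i + j = Y.dim → ∀ z, G i z → W.tr Y (z * x) = W.tr Y (z * x'))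
    (hj : 2 * j ≤ Y.dim)
    (hprim : ∀ i, i + (Y.dim - j + 1) = Y.dim → ∀ z, G i z →
      W.tr Y (z * (L ^ (Y.dim - 2 * j + 1) * x)) = 0)
    (hHN : ∀ i j', i + j' = Y.dim → ∀ y, G' j' y → (∀ z, G' i z → W.tr Y (z * y) = 0) → y = 0) :
    L ^ (Y.dim - 2 * j + 1) * x' = 0 ∧
      W.tr Y (L ^ (Y.dim - 2 * j) * x * x) = W.tr Y (L ^ (Y.dim - 2 * j) * x' * x') := by
  have hLev : ∀ y, L * y = y * L := fun y => W.even_comm hL y
  have hLpow : ∀ (r : ℕ) (y : W.H Y), L ^ r * y = y * L ^ r := by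
    intro r y
    exact (Commute.pow_left (show Commute L y from hLev y) r).eq
  have hxx' : x * x' = x' * x := W.even_comm (hgr j x hx) x'
  constructor
  · have hg1 := hGL' (Y.dim - 2 * j + 1) j x' hx'
    rcases Nat.eq_zero_or_pos j with h0 | h0
    · have h1 := hgr _ _ (hle _ _ hg1)
      rw [W.gr_eq_bot Y _ (by omega)] at h1
      exact (Submodule.mem_bot _).1 h1
    · refine hHN (j - 1) (Y.dim - 2 * j + 1 + j) (by omega) _ hg1 ?_
      intro z hz
      have e1 := hprim (j - 1) (by omega) z (hle _ _ hz)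
      have e2 := hne (Y.dim - 2 * j + 1 + (j - 1)) (by omega) _
        (hGL (Y.dim - 2 * j + 1) (j - 1) z (hle _ _ hz))
      rw [← mul_assoc, ← hLpow] at e1 ⊢
      rw [← e2, e1]
  · have e2 := hne (Y.dim - 2 * j + j) (by omega) _ (hGL (Y.dim - 2 * j) j x hx)
    have e3 := hne (Y.dim - 2 * j + j) (by omega) _ (hGL (Y.dim - 2 * j) j x' (hle _ _ hx'))
    rw [e2, ← e3, mul_assoc, mul_assoc, hxx']

end Ne

/-- The Frobenius with the rational polynomials. -/
lemma exists_poly {Fm Fs : Module.End (baseW T.W E).K ((baseW T.W E).H X)} (hs : IsSs Fm Fs)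
    {φ₀ φ₀' : (Def.coh T E X).H 0 → (Def.coh T E X).H 0} (hFm : ∀ x : (baseW T.W E).H X, Fm x = φ₀ x)
    (hFs : ∀ x : (baseW T.W E).H X, Fs x = φ₀' x) (hw : ∀ i, ∃ Q, Def.Weil (Def.coh T E X) q φ₀ i Q) :
    ∃ (P : Polynomial ℚ) (m : ℕ), Fs = Polynomial.aeval Fm (P.map (algebraMap ℚ (baseW T.W E).K)) ∧
      (∀ x, Def.IsValue (Def.coh T E X) φ₀ P x (φ₀' x)) ∧
      ∀ x, Def.IsValue (Def.coh T E X) φ₀ ((Polynomial.X - P) ^ m) x
        ((Def.coh T E X).zero 0) := by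
  have hfin : Module.Finite (baseW T.W E).K ((baseW T.W E).H X) := ((baseW T.W E).isPoincareAlgebra X).finite
  choose Q hQ using hw
  obtain ⟨F, hF⟩ : ∃ F : Polynomial ℤ, F = ∏ i ∈ Finset.range (2 * X.dim + 1), Q i := ⟨_, rfl⟩
  have hFmon : F.Monic := by
    rw [hF]
    exact Polynomial.monic_prod_of_monic _ _ fun i _ => (hQ i).1
  have hF0 : Polynomial.aeval Fm F = 0 := by
    apply gr_ext ((baseW T.W E).isInternal X)
    intro i x hx
    by_cases hi : i < 2 * X.dim + 1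
    · have h1 : Q i ∣ F := by
        rw [hF]
        exact Finset.dvd_prod_of_mem _ (Finset.mem_range.2 hi)
      obtain ⟨A, hA⟩ := h1
      rw [hA, mul_comm, map_mul, Module.End.mul_apply, weil_aeval hFm (hQ i).2.2 hx, map_zero,
        LinearMap.zero_apply]
    · rw [(baseW T.W E).gr_eq_bot X i (by omega)] at hx
      rw [(Submodule.mem_bot _).1 hx, map_zero, map_zero]
  have hFQ : F.map (Int.castRingHom ℚ) ≠ 0 := (hFmon.map _).ne_zero
  obtain ⟨P, m, ⟨A, hA⟩, h3⟩ := Pool.Agent.N494.HJ.j3 (F.map (Int.castRingHom ℚ)) hFQ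
  have h4 : Polynomial.aeval Fm ((F.map (Int.castRingHom ℚ)).map (algebraMap ℚ (baseW T.W E).K)) = 0 := by
    rw [Polynomial.map_map]
    have h5 : (algebraMap ℚ (baseW T.W E).K).comp (Int.castRingHom ℚ) = Int.castRingHom (baseW T.W E).K :=
      RingHom.ext_int _ _
    rw [h5, aeval_int, hF0]
  have h6 := ss_unique hs (h3 (baseW T.W E).K ((baseW T.W E).H X) Fm h4)
  refine ⟨P, m, h6, fun x l hl => ?_, fun x l hl => ?_⟩
  · refine Eq.symm ((sum_aeval hFm (P.map (algebraMap ℚ (baseW T.W E).K)) (N := P.natDegree + 1)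
      (Nat.lt_succ_of_le Polynomial.natDegree_map_le) (fun m => (P.coeff m : E)) (fun m => by
        rw [Polynomial.coeff_map, eq_ratCast]; rfl) l hl x).trans ?_)
    rw [← h6]
    exact congrArg l (hFs x)
  · refine Eq.symm ((sum_aeval hFm (((Polynomial.X - P) ^ m).map (algebraMap ℚ (baseW T.W E).K))
      (N := ((Polynomial.X - P) ^ m).natDegree + 1)
      (Nat.lt_succ_of_le Polynomial.natDegree_map_le)
      (fun r => (((Polynomial.X - P) ^ m).coeff r : E)) (fun m => by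
        rw [Polynomial.coeff_map, eq_ratCast]; rfl) l hl x).trans ?_)
    rw [hA, Polynomial.map_mul, map_mul, h4, zero_mul]
    rfl

/-- A semisimple Frobenius is its semisimple part. -/
lemma eq_of_semisimple {Fm Fs : Module.End (baseW T.W E).K ((baseW T.W E).H X)} (hs : IsSs Fm Fs)
    (hgr : ∀ i, ∀ x ∈ (baseW T.W E).gr X i, Fm x ∈ (baseW T.W E).gr X i)
    {φ₀ : (Def.coh T E X).H 0 → (Def.coh T E X).H 0} (hFm : ∀ x : (baseW T.W E).H X, Fm x = φ₀ x)
    (hss : Def.Semisimple (Def.coh T E X) q φ₀) : Fs = Fm := by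
  have hfin : Module.Finite (baseW T.W E).K ((baseW T.W E).H X) := ((baseW T.W E).isPoincareAlgebra X).finite
  apply gr_ext ((baseW T.W E).isInternal X)
  intro i x hx
  obtain ⟨Q, ⟨hQ1, hQ2, hQ3⟩, hQ4⟩ := hss i
  obtain ⟨sp, h1, h2⟩ := ss_restrict hs ((baseW T.W E).gr X i) (hgr i)
  have h3 : Polynomial.aeval (Fm.restrict (hgr i)) Q = 0 := by
    apply LinearMap.ext
    intro y
    apply Subtype.ext
    rw [aeval_restrict (fun y => rfl) Q y]
    exact weil_aeval hFm hQ3 y.2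
  have h4 : IsSs (Fm.restrict (hgr i)) (Fm.restrict (hgr i)) := by
    refine isSs_self (P := Q.map (Int.castRingHom (baseW T.W E).K)) ?_ ?_
    · have h5 : (Q.map (Int.castRingHom ℚ)).Separable := PerfectField.separable_iff_squarefree.2 hQ4
      have h6 := h5.map (f := algebraMap ℚ (baseW T.W E).K)
      rw [Polynomial.map_map] at h6
      have h7 : (algebraMap ℚ (baseW T.W E).K).comp (Int.castRingHom ℚ) = Int.castRingHom (baseW T.W E).K :=
        RingHom.ext_int _ _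
      rw [h7] at h6
      exact h6.squarefree
    · rw [aeval_int, h3]
  have h8 := h2 ⟨x, hx⟩
  rw [← h8, ss_unique h1 h4]
  rfl

lemma mem_gr {ψ : RForm T.W X} (h : Def.IsFrobenius (Def.coh T E X) q φ S) {n j : ℕ}
    {x : (baseW T.W E).H (pw X n)} (hx : Def.Gen (Def.coh T E X) (φ 0) S n j x) :
    x ∈ (baseW T.W E).gr (pw X n) (2 * j) := by
  have hgd := N505.HR.gd k 𝒱 ops T X ψ E (φ 0) (rat S) (fun n j c hc => hc.1.1) (h.lin 0)
    (h.deg 0) n j x
  rw [ext_rat h.hodge] at hgd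
  exact hgd (gen_to ψ hx)

lemma gen_lef {φ₀ : (Def.coh T E X).H 0 → (Def.coh T E X).H 0} {n : ℕ}
    {L : (Def.coh T E X).H n} (hL : L ∈ S n 1) {j : ℕ}
    {x : (Def.coh T E X).H n} (hx : Def.Gen (Def.coh T E X) φ₀ S n j x) (r : ℕ) :
    Def.Gen (Def.coh T E X) φ₀ S n (r + j) (Def.lef (Def.coh T E X) n L r x) := by
  induction r with
  | zero => rw [zero_add]; exact hx
  | succ r ih =>
    rw [Def.lef, Function.iterate_succ_apply', show r + 1 + j = 1 + (r + j) by omega]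
    exact .mul (.base hL) ih

lemma raw_of {ψ : RForm T.W X} {D : X.Cycles}
    (hform : ∀ (f : HL T.W E X → HL T.W E X), 0 < q →
      (∀ x y, f (x + y) = f x + f y) → (∀ (c : E) x, f (c • x) = c • f x) →
      (∀ x y, f (mulL x y) = mulL (f x) (f y)) → (∀ i x, IsDeg i x → IsDeg i (f x)) →
      (∀ x, trL (f x) = (q : E) ^ X.dim * trL x) →
      f (emL T.W E (T.W.cl X D)) = (q : E) • emL T.W E (T.W.cl X D) →
      ∀ i x, IsDeg i x → ∀ y, RD.Raw.extBilE E ψ (f x) (f y) =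
        (q : E) ^ i * RD.Raw.extBilE E ψ x y)
    (h : Def.IsFrobenius (Def.coh T E X) q φ S)
    (hL : φ 0 (emL T.W E (T.W.cl X D)) = (q : E) • emL T.W E (T.W.cl X D)) :
    Raw.IsFrobenius (RD.Raw.coh T E ψ) q φ (Raw.ext T E (rat S)) := by
  rw [ext_rat h.hodge]
  exact {
    q_pos := h.q_pos
    lin := h.lin
    mul := h.mul
    deg := h.deg
    pull := fun n m f hf x => h.pull n m f ((mem_pull ψ).2 hf) x
    tr := h.tr
    form := hform (φ 0) h.q_pos (h.lin 0).1 (h.lin 0).2 (h.mul 0) (h.deg 0) h.tr hL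
    conj := h.conj
    fix := h.fix }

lemma lef_W {n : ℕ} (L x : (baseW T.W E).H (pw X n)) (r : ℕ) :
    Def.lef (Def.coh T E X) n L r x = L ^ r * x := lef_eq L x r

/-- **The theorem.** -/
theorem final3 (hP : S_P2.{u}) (hF2 : S_F2.{u}) (hF3 : S_F3.{u}) (hF4 : S_F4.{u})
    (hF5 : S_F5.{u}) (hF6 : S_F6) (hF7 : S_F7) (hNA : S_NA.{u}) (hNB : S_NB.{u})
    (hNC : S_NC.{u}) (hE : Nonempty (E →+* ℂ))
    (h : Def.IsFrobenius (Def.coh T E X) q φ S)
    (hw : ∀ i, ∃ Q, Def.Weil (Def.coh T E X) q (φ 0) i Q) :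
    ∃ φ', Def.IsSemisimplePart (Def.coh T E X) q (φ 0) φ' ∧
      (∀ n j x, Def.Gen (Def.coh T E X) (φ 0) S n j x →
        ∃ x', Def.Gen (Def.coh T E X) φ' S n j x' ∧
          Def.NumEquiv (Def.coh T E X) (φ 0) S n j x x') ∧
      (∀ n, ∀ L ∈ (Def.coh T E X).polar n, L ∈ S n 1 →
        Def.HodgeType (Def.coh T E X) φ' S n L ∧
        (Def.InverseIn (Def.coh T E X) S n L → Def.HomNum (Def.coh T E X) φ' S n ∧
          Def.NumHodgeType (Def.coh T E X) (φ 0) S n L)) ∧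
      (Def.HomNum (Def.coh T E X) (φ 0) S 1 → φ' = φ 0) := by
  obtain ⟨Φ', h', hs⟩ := exists_ss (frobK_def h)
  have hD' := isFrobenius_ss h h' hs
  have hss : Def.Semisimple (Def.coh T E X) q (Φ' 0) :=
    semisimple_ss (hs 0) (fun i x hx => h.deg 0 i x hx) (fun _ => rfl) (fun _ => rfl) hw
  obtain ⟨P, m, hPeq, hval, hval0⟩ := exists_poly (hs 0) (fun _ => rfl) (fun _ => rfl) hw
  obtain ⟨f1, f2, -⟩ := final hP hF2 hF3 hF4 hF5 hF6 hF7 hE hD'
    (fun i => (hss i).imp fun Q hQ => hQ.1)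
  obtain ⟨-, -, f3⟩ := final hP hF2 hF3 hF4 hF5 hF6 hF7 hE h hw
  obtain ⟨L₀, hL₀, ⟨D₀, hD₀, hLD₀⟩, hφL₀⟩ := h.polar
  obtain ⟨ψ, hψ, hform⟩ := hP k 𝒱 ops T X D₀ hD₀
  have hq : (q : (baseW T.W E).K) ≠ 0 := by exact_mod_cast h.q_pos.ne'
  have hφL₀' : Φ' 0 L₀ = (Def.coh T E X).smul 0 (q : E) L₀ :=
    (eq_of_fix (frobK_def h) (hs 0) (m := 1) one_pos hq hφL₀).trans hφL₀
  rw [hLD₀] at hφL₀ hφL₀'
  have hR : Raw.IsFrobenius (RD.Raw.coh T E ψ) q φ (Raw.ext T E (rat S)) :=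
    raw_of (fun f => hform E q f) h hφL₀
  have hR' : Raw.IsFrobenius (RD.Raw.coh T E ψ) q Φ' (Raw.ext T E (rat S)) :=
    raw_of (fun f => hform E q f) hD' hφL₀'
  have hpair : Pair hR hR' P := ⟨hPeq, (hs 0).2.1⟩
  have hext : Raw.ext T E (rat S) = S := ext_rat h.hodge
  have hunit : Raw.Gen (RD.Raw.coh T E ψ) (φ 0) (Raw.ext T E (rat S)) 0 0
      (emL T.W E (1 : T.W.H X)) := by
    rw [hext]
    obtain ⟨u, hu, hu1⟩ := h.unit
    have h1 : u = emL T.W E (1 : T.W.H X) := by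
      have h2 : mulL (show HL T.W E X from u) (emL T.W E (1 : T.W.H X)) =
        emL T.W E (1 : T.W.H X) := hu1 _
      have h3 : mulL (show HL T.W E X from u) (emL T.W E (1 : T.W.H X)) = u :=
        mul_one (M := (baseW T.W E).H X) u
      exact h3.symm.trans h2
    have h4 : Raw.Gen (RD.Raw.coh T E ψ) (φ 0) S 0 0 u := .base hu
    rw [h1] at h4
    exact h4
  have hdec : ∀ n j x, Def.Gen (Def.coh T E X) (φ 0) S n j x →
      ∃ x', Def.Gen (Def.coh T E X) (Φ' 0) S n j x' ∧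
        Def.NumEquiv (Def.coh T E X) (φ 0) S n j x x' := by
    intro n j x hx
    have hxr : Raw.Gen (RD.Raw.coh T E ψ) (φ 0) (Raw.ext T E (rat S)) n j x := by
      rw [hext]
      exact gen_to ψ hx
    obtain ⟨x', hx'1, hx'2⟩ := dec hNA hNB hNC N505.HR.gd hF2 hF5 (fun n j c hc => hc.1.1)
      hunit hpair hxr
    rw [hext] at hx'1
    refine ⟨x', gen_of ψ hx'1, fun i hi z hz => hx'2 i hi z ?_⟩
    rw [hext]
    exact gen_to ψ hz
  refine ⟨Φ' 0, ⟨hss, P, m, hval, hval0⟩, hdec, ?_, ?_⟩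
  · intro n L hLp hLS
    have hHT := f1 hss n L hLp hLS
    refine ⟨hHT, fun hI => ?_⟩
    have hHN := f2 n L hLp hLS hI hHT
    refine ⟨hHN, ?_⟩
    intro j x hx hj hprim hx0 σ
    obtain ⟨x', hx', hne'⟩ := hdec n j x hx
    have hle : ∀ {n j : ℕ} {x : (Def.coh T E X).H n}, Def.Gen (Def.coh T E X) (Φ' 0) S n j x →
        Def.Gen (Def.coh T E X) (φ 0) S n j x := by
      intro n j x hx
      have h1 : Raw.Gen (RD.Raw.coh T E ψ) (Φ' 0) (Raw.ext T E (rat S)) n j x := by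
        rw [hext]
        exact gen_to ψ hx
      have h2 := gen_le hNC hpair h1
      rw [hext] at h2
      exact gen_of ψ h2
    have hne := fun (i : ℕ) (hi : i + j = (pw X n).dim) (z : (baseW T.W E).H (pw X n))
        (hz : Def.Gen (Def.coh T E X) (φ 0) S n i z) => hne' i hi z hz
    have hgr : ∀ (j : ℕ) (x : (baseW T.W E).H (pw X n)), Def.Gen (Def.coh T E X) (φ 0) S n j x →
        x ∈ (baseW T.W E).gr (pw X n) (2 * j) := fun j x hx => mem_gr (ψ := ψ) h hx
    have hGL : ∀ (φ₀ : (Def.coh T E X).H 0 → (Def.coh T E X).H 0) (Lw : (baseW T.W E).H (pw X n)),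
        Lw ∈ S n 1 → ∀ (r j : ℕ) (x : (baseW T.W E).H (pw X n)),
        Def.Gen (Def.coh T E X) φ₀ S n j x → Def.Gen (Def.coh T E X) φ₀ S n (r + j) (Lw ^ r * x) := by
      intro φ₀ Lw hLw r j x hx
      have h1 := gen_lef hLw hx r
      rw [lef_W] at h1
      exact h1
    have hprimW : ∀ (Lw xw : (baseW T.W E).H (pw X n)), Def.NumTrivial (Def.coh T E X) (φ 0) S n
        ((Def.coh T E X).dim n - j + 1) (Def.lef (Def.coh T E X) n Lw
          ((Def.coh T E X).dim n - 2 * j + 1) xw) →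
        ∀ i, i + ((pw X n).dim - j + 1) = (pw X n).dim → ∀ z : (baseW T.W E).H (pw X n),
        Def.Gen (Def.coh T E X) (φ 0) S n i z →
        (baseW T.W E).tr (pw X n) (z * (Lw ^ ((pw X n).dim - 2 * j + 1) * xw)) = 0 := by
      intro Lw xw hp i hi z hz
      have h1 := hp i hi z hz
      rw [lef_W] at h1
      exact h1
    have key := num_key (W := baseW T.W E) (Y := pw X n)
      (fun j x => Def.Gen (Def.coh T E X) (φ 0) S n j x)
      (fun j x => Def.Gen (Def.coh T E X) (Φ' 0) S n j x) (fun j x hx => hle hx) hgr L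
      (hgr 1 L (.base hLS)) (hGL (φ 0) L hLS) (hGL (Φ' 0) L hLS) (j := j) (x := x) (x' := x') hx
      hx' hne hj (hprimW L x hprim) hHN
    obtain ⟨hk1, hk2⟩ := key
    have hprim' : Def.lef (Def.coh T E X) n L ((Def.coh T E X).dim n - 2 * j + 1) x' =
        (Def.coh T E X).zero n := (lef_W (E := E) L x' _).trans hk1
    have hx'0 : x' ≠ (Def.coh T E X).zero n := by
      intro h0
      apply hx0
      intro i hi z hz
      have e1 := hne i hi z hz
      refine e1.trans ?_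
      have e3 : ∀ y z : (baseW T.W E).H (pw X n), y = 0 → (baseW T.W E).tr (pw X n) (z * y) = 0 := by
        intro y z hy
        rw [hy, mul_zero, map_zero]
      exact e3 x' z h0
    obtain ⟨r, hr, hr2⟩ := hHT j x' hx' hj hprim' hx'0 σ
    refine ⟨r, hr, ?_⟩
    rw [← hr2]
    have hlef : ∀ (Lw y : (baseW T.W E).H (pw X n)), (baseW T.W E).tr (pw X n) (Lw ^ ((pw X n).dim - 2 * j) * y * y) =
        (Def.coh T E X).tr n ((Def.coh T E X).mul n
          (Def.lef (Def.coh T E X) n Lw ((Def.coh T E X).dim n - 2 * j) y) y) := by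
      intro Lw y
      rw [lef_W]
      rfl
    have e1 := ((hlef L x).symm.trans hk2).trans (hlef L x')
    exact congrArg (fun w => (-1 : ℂ) ^ j * σ w) e1
  · intro hN
    have h1 := eq_of_semisimple (hs 0) (fun i x hx => h.deg 0 i x hx) (fun _ => rfl) (f3 hN)
    funext x
    exact congrArg (fun F : Module.End (baseW T.W E).K ((baseW T.W E).H X) => F x) h1

end Pool.Agent.N204.HJ
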