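import Pool.Agent.N204.HJ.Lin
import Pool.Agent.N204.HR.Asm4

/-!
# The semisimple part of the Frobenius
-/

set_option linter.unusedSectionVars false

open CategoryTheory AlgebraicGeometry TensorProduct

universe u

namespace Pool.Agent.N204.HJ

open Module
open Pool.Agent.H914 Pool.Agent.H914.VarClass Pool.Agent.H914.VarClass.Obj
  Pool.Agent.H914.WeilCohomology
open Pool.Agent.Y133.Half (pw)
open Pool.Agent.N996.BP (IsCoordinateMap)
open Pool.Agent.N204.HR (FrobK)

variable {k : Type u} [Field k] {𝒱 : VarClass k} {ops : CycleOps 𝒱}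
  {W : WeilCohomology.{u, 0} ops} {X : 𝒱.Obj} {q : ℕ}
  {Φ : ∀ n, W.H (pw X n) → W.H (pw X n)}

/-- The operators as linear maps. -/
def Lin (h : FrobK W X q Φ) (n : ℕ) : Module.End W.K (W.H (pw X n)) where
  toFun := Φ n
  map_add' := h.add n
  map_smul' := h.smul n

/-- **The semisimple part of the Frobenius.** -/
theorem exists_ss (h : FrobK W X q Φ) : ∃ Φ' : ∀ n, W.H (pw X n) → W.H (pw X n),
    ∃ h' : FrobK W X q Φ', ∀ n, IsSs (Lin h n) (Lin h' n) := by
  have hfin : ∀ n, Module.Finite W.K (W.H (pw X n)) := fun n =>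
    (W.isPoincareAlgebra (pw X n)).finite
  choose s hs using fun n => exists_isSs (Lin h n)
  refine ⟨fun n x => s n x, ⟨h.q_pos, fun n x y => map_add (s n) x y,
    fun n c x => map_smul (s n) c x, ?_, ?_, ?_, ?_⟩, fun n => ?_⟩
  · intro n x y
    have h1 := Pool.Agent.N306.HJ.j1 W.K (W.H (pw X n) ⊗[W.K] W.H (pw X n)) (W.H (pw X n))
      (TensorProduct.map (Lin h n) (Lin h n)) (TensorProduct.map (s n) (s n)) (Lin h n) (s n)
      (LinearMap.mul' W.K (W.H (pw X n)))
      (Pool.Agent.N615.HJ.j2 W.K (W.H (pw X n)) (Lin h n) (s n) (hs n)) (hs n) (by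
        intro t
        induction t using TensorProduct.induction_on with
        | zero => rw [map_zero, map_zero, map_zero]
        | add a b ha hb => rw [map_add, map_add, ha, hb, map_add, map_add]
        | tmul a b =>
          rw [TensorProduct.map_tmul, LinearMap.mul'_apply, LinearMap.mul'_apply]
          exact (h.mul n a b).symm) (x ⊗ₜ y)
    rw [TensorProduct.map_tmul, LinearMap.mul'_apply, LinearMap.mul'_apply] at h1
    exact h1.symm
  · intro n i x hx
    exact ss_mem (hs n) (W.gr (pw X n) i) (fun x hx => h.gr n i x hx) hx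
  · intro n m f hf x
    exact (Pool.Agent.N306.HJ.j1 W.K (W.H (pw X n)) (W.H (pw X m)) (Lin h n) (s n) (Lin h m) (s m)
      (W.map f).toLinearMap (hs n) (hs m) (fun x => (h.map n m f hf x).symm) x).symm
  · intro x
    have h1 : IsSs (((q : W.K) ^ X.dim) • (1 : Module.End W.K W.K))
        (((q : W.K) ^ X.dim) • (1 : Module.End W.K W.K)) := by
      refine isSs_pow (m := 1) one_pos (c := (q : W.K) ^ X.dim) ?_ ?_
      · have : (q : W.K) ≠ 0 := by exact_mod_cast h.q_pos.ne'
        exact pow_ne_zero _ this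
      · intro y
        rw [pow_one]
        rfl
    exact Pool.Agent.N306.HJ.j1 W.K (W.H (pw X 0)) W.K (Lin h 0) (s 0) _ _
      (W.tr (pw X 0)) (hs 0) h1 (fun x => h.tr x) x
  · exact hs n

lemma lin_pow (h : FrobK W X q Φ) (n m : ℕ) (x : W.H (pw X n)) :
    ((Lin h n) ^ m) x = (Φ n)^[m] x := by
  induction m generalizing x with
  | zero => rfl
  | succ m ih => rw [pow_succ, Module.End.mul_apply, ih, Function.iterate_succ_apply]; rfl

/-- The semisimple part agrees with the Frobenius on the classes which are multiplied by a scalar by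
some power of the Frobenius. -/
lemma eq_of_fix (h : FrobK W X q Φ) {Φ' : ∀ n, W.H (pw X n) → W.H (pw X n)}
    {h' : FrobK W X q Φ'} {n : ℕ} (hs : IsSs (Lin h n) (Lin h' n)) {m : ℕ} (hm : 0 < m) {c : W.K}
    (hc : c ≠ 0) {x : W.H (pw X n)} (hx : (Φ n)^[m] x = c • x) : Φ' n x = Φ n x := by
  have hfin : Module.Finite W.K (W.H (pw X n)) := (W.isPoincareAlgebra (pw X n)).finite
  exact ss_fix hs hm hc ((lin_pow h n m x).trans hx)

lemma iter_of_fix (h : FrobK W X q Φ) {Φ' : ∀ n, W.H (pw X n) → W.H (pw X n)}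
    {h' : FrobK W X q Φ'} {n : ℕ} (hs : IsSs (Lin h n) (Lin h' n)) {m : ℕ} (hm : 0 < m) {c : W.K}
    (hc : c ≠ 0) {x : W.H (pw X n)} (hx : (Φ n)^[m] x = c • x) (r : ℕ) :
    (Φ' n)^[r] x = (Φ n)^[r] x := by
  induction r with
  | zero => rfl
  | succ r ih =>
    rw [Function.iterate_succ_apply', Function.iterate_succ_apply', ih]
    refine eq_of_fix h hs hm hc (m := m) ?_
    rw [← Function.iterate_add_apply, Nat.add_comm, Function.iterate_add_apply, hx]
    have h1 : ((Lin h n) ^ r) (c • x) = c • ((Lin h n) ^ r) x := map_smul _ _ _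
    rw [lin_pow, lin_pow] at h1
    exact h1

end Pool.Agent.N204.HJ
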