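import Mathlib

/-!
# The semisimple part of an endomorphism: the parts (pure linear algebra)
-/

open TensorProduct Polynomial

namespace Pool.Agent.N204.HJ

open Module

/-- `s` is the semisimple part of `f`. -/
def IsSs {K V : Type} [Field K] [AddCommGroup V] [Module K V] (f s : Module.End K V) : Prop :=
  s.IsSemisimple ∧ IsNilpotent (f - s) ∧ Commute f s

/-- **Task J1** (functoriality of the semisimple part; uniqueness is the case `g = id`). -/
def S_J1 : Prop := ∀ (K V W : Type) [Field K] [CharZero K] [AddCommGroup V] [Module K V]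
  [Module.Finite K V] [AddCommGroup W] [Module K W] [Module.Finite K W]
  (f s : Module.End K V) (f' s' : Module.End K W) (g : V →ₗ[K] W), IsSs f s → IsSs f' s' →
  (∀ x, g (f x) = f' (g x)) → ∀ x, g (s x) = s' (g x)

/-- **Task J2** (the tensor square). -/
def S_J2 : Prop := ∀ (K V : Type) [Field K] [CharZero K] [AddCommGroup V] [Module K V]
  [Module.Finite K V] (f s : Module.End K V), IsSs f s →
  IsSs (TensorProduct.map f f : Module.End K (V ⊗[K] V)) (TensorProduct.map s s)

/-- **Task J3** (the semisimple part is a polynomial with rational coefficients). -/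
def S_J3 : Prop := ∀ F : ℚ[X], F ≠ 0 → ∃ P : ℚ[X], ∃ m : ℕ, F ∣ (X - P) ^ m ∧
  ∀ (K V : Type) [Field K] [CharZero K] [AddCommGroup V] [Module K V] [Module.Finite K V]
    (f : Module.End K V), aeval f (F.map (algebraMap ℚ K)) = 0 →
    IsSs f (aeval f (P.map (algebraMap ℚ K)))

/-- **Task J4** (the radical of a monic polynomial with integral coefficients). -/
def S_J4 : Prop := ∀ Q : ℤ[X], Q.Monic → ∃ R : ℤ[X], R.Monic ∧
  Squarefree (R.map (Int.castRingHom ℚ)) ∧ R ∣ Q ∧ ∃ k : ℕ, Q ∣ R ^ k

end Pool.Agent.N204.HJ
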