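import Pool.Agent.N204.HJ.Stm
import Pool.Agent.N306.HJ.J1
import Pool.Agent.N615.HJ.J2

/-!
# The semisimple part of an endomorphism: consequences
-/

set_option linter.unusedSectionVars false

open TensorProduct Polynomial

namespace Pool.Agent.N204.HJ

open Module

section Lin

variable {K V : Type} [Field K] [CharZero K] [AddCommGroup V] [Module K V] [Module.Finite K V]

lemma exists_isSs (f : Module.End K V) : ∃ s, IsSs f s := by
  obtain ⟨n, hn, s, hs, hn', hs', h⟩ := f.exists_isNilpotent_isSemisimple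
  refine ⟨s, hs', ?_, ?_⟩
  · have h1 : f - s = n := by rw [h]; abel
    rw [h1]; exact hn'
  · exact (Algebra.commute_of_mem_adjoin_self hs)

lemma isSs_self {f : Module.End K V} {P : K[X]} (hP : Squarefree P) (h : aeval f P = 0) :
    IsSs f f :=
  ⟨Module.End.isSemisimple_of_squarefree_aeval_eq_zero hP h, by rw [sub_self]; exact IsNilpotent.zero,
    Commute.refl f⟩

lemma squarefree_pow_sub {m : ℕ} (hm : 0 < m) {c : K} (hc : c ≠ 0) :
    Squarefree (X ^ m - C c : K[X]) :=
  (separable_X_pow_sub_C c (Nat.cast_ne_zero.2 hm.ne') hc).squarefree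

lemma isSs_pow {f : Module.End K V} {m : ℕ} (hm : 0 < m) {c : K} (hc : c ≠ 0)
    (h : ∀ x, (f ^ m) x = c • x) : IsSs f f := by
  refine isSs_self (squarefree_pow_sub hm hc) ?_
  apply LinearMap.ext
  intro x
  rw [map_sub, map_pow, aeval_X, aeval_C, LinearMap.sub_apply, h x, Module.algebraMap_end_apply,
    sub_self, LinearMap.zero_apply]

/-- The semisimple part of the restriction. -/
lemma ss_restrict {f s : Module.End K V} (h : IsSs f s) (p : Submodule K V)
    (hp : ∀ x ∈ p, f x ∈ p) : ∃ sp : Module.End K p, IsSs (f.restrict hp) sp ∧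
      ∀ x : p, ((sp x : p) : V) = s x := by
  obtain ⟨sp, hsp⟩ := exists_isSs (f.restrict hp)
  refine ⟨sp, hsp, ?_⟩
  intro x
  exact Pool.Agent.N306.HJ.j1 K p V (f.restrict hp) sp f s p.subtype hsp h (fun x => rfl) x

lemma ss_mem {f s : Module.End K V} (h : IsSs f s) (p : Submodule K V)
    (hp : ∀ x ∈ p, f x ∈ p) {x : V} (hx : x ∈ p) : s x ∈ p := by
  obtain ⟨sp, -, h2⟩ := ss_restrict h p hp
  rw [← h2 ⟨x, hx⟩]
  exact (sp ⟨x, hx⟩).2

lemma ss_unique {f s s' : Module.End K V} (h : IsSs f s) (h' : IsSs f s') : s = s' :=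
  LinearMap.ext fun x => Pool.Agent.N306.HJ.j1 K V V f s f s' LinearMap.id h h' (fun _ => rfl) x

lemma ss_fix {f s : Module.End K V} (h : IsSs f s) {m : ℕ} (hm : 0 < m) {c : K} (hc : c ≠ 0)
    {x : V} (hx : (f ^ m) x = c • x) : s x = f x := by
  obtain ⟨p, hpdef⟩ : ∃ p : Submodule K V, ∀ y, y ∈ p ↔ (f ^ m) y = c • y :=
    ⟨LinearMap.ker (f ^ m - c • (1 : Module.End K V)), fun y => by
      rw [LinearMap.mem_ker, LinearMap.sub_apply, sub_eq_zero]
      rfl⟩
  have hp : ∀ y ∈ p, f y ∈ p := by
    intro y hy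
    rw [hpdef] at hy ⊢
    rw [← Module.End.mul_apply, ← pow_succ, pow_succ', Module.End.mul_apply, hy, map_smul]
  obtain ⟨sp, h1, h2⟩ := ss_restrict h p hp
  have h3 : IsSs (f.restrict hp) (f.restrict hp) := by
    refine isSs_pow hm hc ?_
    intro y
    apply Subtype.ext
    have h4 : ∀ r : ℕ, ((((f.restrict hp) ^ r) y : p) : V) = (f ^ r) y := by
      intro r
      induction r with
      | zero => rfl
      | succ r ih =>
        rw [pow_succ', pow_succ', Module.End.mul_apply, Module.End.mul_apply, ← ih]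
        rfl
    rw [h4]
    exact (hpdef y).1 y.2
  have h4 := h2 ⟨x, (hpdef x).2 hx⟩
  rw [← h4, ss_unique h1 h3]
  rfl

lemma aeval_int (f : Module.End K V) (Q : ℤ[X]) :
    aeval f (Q.map (Int.castRingHom K)) = aeval f Q := by
  have h := Polynomial.aeval_map_algebraMap K f Q
  exact h

lemma aeval_sub_eq {A : Type} [Ring A] {f s : A} (h : Commute f s) (R : ℤ[X]) :
    ∃ B : A, Commute B (f - s) ∧ aeval f R - aeval s R = B * (f - s) := by
  induction R using Polynomial.induction_on' with
  | add p q hp hq =>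
    obtain ⟨B, h1, h2⟩ := hp
    obtain ⟨C, h3, h4⟩ := hq
    refine ⟨B + C, h1.add_left h3, ?_⟩
    rw [map_add, map_add, add_mul, ← h2, ← h4]
    abel
  | monomial n a =>
    refine ⟨a • ∑ i ∈ Finset.range n, f ^ i * s ^ (n - 1 - i), ?_, ?_⟩
    · refine Commute.smul_left ?_ a
      refine Commute.sum_left _ _ _ fun i _ => ?_
      refine Commute.mul_left ?_ ?_
      · exact (((Commute.refl f).sub_right h).pow_left i)
      · exact ((h.symm.sub_right (Commute.refl s)).pow_left _)
    · rw [aeval_monomial, aeval_monomial, ← mul_sub, ← h.geom_sum₂_mul n, smul_mul_assoc,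
        Algebra.smul_def]

/-- The polynomial of the semisimple part. -/
lemma aeval_ss {f s : Module.End K V} (h : IsSs f s) {Q R : ℤ[X]}
    {k : ℕ} (hQR : Q ∣ R ^ k)
    (hQ : aeval f Q = 0) : aeval s R = 0 := by
  have h1 : IsNilpotent (aeval f R) := by
    obtain ⟨A, hA⟩ := hQR
    refine ⟨k, ?_⟩
    rw [← map_pow, hA, map_mul, hQ, zero_mul]
  have hss : (aeval s R).IsSemisimple := by
    rw [← aeval_int]
    exact h.1.aeval _
  have hcomm : Commute f s := h.2.2
  have hc2 : Commute (aeval f R) (aeval s R) := by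
    have h3 : Commute f (aeval s R) := by
      have : aeval s R ∈ Algebra.adjoin ℤ {s} := by
        rw [Algebra.adjoin_singleton_eq_range_aeval]
        exact ⟨R, rfl⟩
      exact Algebra.commute_of_mem_adjoin_singleton_of_commute this hcomm
    have : aeval f R ∈ Algebra.adjoin ℤ {f} := by
      rw [Algebra.adjoin_singleton_eq_range_aeval]
      exact ⟨R, rfl⟩
    exact (Algebra.commute_of_mem_adjoin_singleton_of_commute this h3.symm).symm
  have hd : IsNilpotent (aeval f R - aeval s R) := by
    obtain ⟨B, h6, h7⟩ := aeval_sub_eq hcomm R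
    rw [h7]
    exact h6.isNilpotent_mul_left h.2.1
  have hn : IsNilpotent (aeval s R) := by
    have h5 : aeval s R = aeval f R - (aeval f R - aeval s R) := by abel
    rw [h5]
    refine Commute.isNilpotent_sub ?_ h1 hd
    exact (Commute.refl _).sub_right hc2
  exact Module.End.eq_zero_of_isNilpotent_isSemisimple hn hss

end Lin

end Pool.Agent.N204.HJ
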