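import Pool.Agent.N204.HJ.Dec
import Pool.Agent.N204.HJ.Def3
import Pool.Agent.N204.HR.Trans
import Pool.Agent.N494.HJ.J3
import Pool.Agent.N615.HJ.J4

/-!
# The semisimple part of the Frobenius: the theorem
-/

set_option linter.unusedSectionVars false

open CategoryTheory AlgebraicGeometry TensorProduct

universe u

namespace Pool.Agent.N204.HJ

open Module
open Pool.Agent.H914 Pool.Agent.H914.VarClass Pool.Agent.H914.VarClass.Obj
  Pool.Agent.H914.WeilCohomology
open Pool.Agent.Y133.Half (pw)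
open Pool.Agent.Y121.AHS
open Pool.Agent.N996.BP (IsCoordinateMap RForm IsPolarisation)
open Pool.Agent.N204.HR

variable {k : Type u} [Field k] {𝒱 : VarClass k} {ops : CycleOps 𝒱}
  {T : HodgeTheory ops} {X : 𝒱.Obj} {E : Type} [Field E] [Algebra T.W.K E]
  {S : ∀ n : ℕ, ℕ → Set ((Def.coh T E X).H n)} {q : ℕ}
  {φ : ∀ n, (Def.coh T E X).H n → (Def.coh T E X).H n}


lemma frobK_def (h : Def.IsFrobenius (Def.coh T E X) q φ S) : FrobK (baseW T.W E) X q φ where
  q_pos := h.q_pos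
  add n := (h.lin n).1
  smul n := (h.lin n).2
  mul := h.mul
  gr := h.deg
  map n m f hf x := h.pull n m (mapL (W := T.W) (L := E) f) ⟨f, fun i hi => by
    obtain ⟨j, hj, h1⟩ := hf i hi
    exact ⟨j, hj, by rw [pr_eq', pr_eq', h1]⟩, rfl⟩ x
  tr := h.tr

lemma isFrobenius_ss (h : Def.IsFrobenius (Def.coh T E X) q φ S)
    {Φ' : ∀ n, (baseW T.W E).H (pw X n) → (baseW T.W E).H (pw X n)} (h' : FrobK (baseW T.W E) X q Φ')
    (hs : ∀ n, IsSs (Lin (frobK_def h) n) (Lin h' n)) :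
    Def.IsFrobenius (Def.coh T E X) q Φ' S := by
  have hq : (q : (baseW T.W E).K) ≠ 0 := by exact_mod_cast h.q_pos.ne'
  exact {
    q_pos := h.q_pos
    lin := fun n => ⟨h'.add n, h'.smul n⟩
    mul := h'.mul
    deg := h'.gr
    pull := by
      rintro n m _ ⟨g, hg, rfl⟩ x
      refine h'.map n m g (fun i hi => ?_) x
      obtain ⟨j, hj, h1⟩ := hg i hi
      exact ⟨j, hj, by rw [← pr_eq', ← pr_eq', h1]⟩
    tr := h'.tr
    hodge := h.hodge
    conj := by
      intro n j x hx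
      obtain ⟨m, hm, hfix⟩ := h.fix n j x hx
      obtain ⟨y, hy, hxy⟩ := h.conj n j x hx
      exact ⟨y, hy, (eq_of_fix (frobK_def h) (hs n) hm (pow_ne_zero (j * m) hq) hfix).trans hxy⟩
    fix := by
      intro n j x hx
      obtain ⟨m, hm, hfix⟩ := h.fix n j x hx
      exact ⟨m, hm, (iter_of_fix (frobK_def h) (hs n) hm (pow_ne_zero (j * m) hq) hfix m).trans
        hfix⟩
    unit := h.unit
    polar := by
      obtain ⟨L, hL, hLp, hφL⟩ := h.polar
      exact ⟨L, hL, hLp, (eq_of_fix (frobK_def h) (hs 0) (m := 1) one_pos hq hφL).trans hφL⟩ }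

/-- Values of polynomials. -/
lemma pow_iter {Fm : Module.End (baseW T.W E).K ((baseW T.W E).H X)} {φ₀ : (Def.coh T E X).H 0 → (Def.coh T E X).H 0}
    (hFm : ∀ x : (baseW T.W E).H X, Fm x = φ₀ x) (r : ℕ) (x : (baseW T.W E).H X) : (Fm ^ r) x = φ₀^[r] x := by
  induction r with
  | zero => rfl
  | succ r ih =>
    rw [pow_succ', Module.End.mul_apply, ih]
    exact Eq.trans (hFm _) (Function.iterate_succ_apply' φ₀ r x).symm

lemma sum_aeval {Fm : Module.End (baseW T.W E).K ((baseW T.W E).H X)} {φ₀ : (Def.coh T E X).H 0 → (Def.coh T E X).H 0}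
    (hFm : ∀ x : (baseW T.W E).H X, Fm x = φ₀ x) (p : Polynomial (baseW T.W E).K) {N : ℕ} (hN : p.natDegree < N)
    (c : ℕ → E) (hc : ∀ m, p.coeff m = c m) (l : (Def.coh T E X).H 0 → E)
    (hl : Def.IsLin (Def.coh T E X) l) (x : (baseW T.W E).H X) :
    ∑ m ∈ Finset.range N, c m * l (φ₀^[m] x) = l (Polynomial.aeval Fm p x) := by
  obtain ⟨l', hl'⟩ : ∃ l' : (baseW T.W E).H X →ₗ[(baseW T.W E).K] (baseW T.W E).K, ∀ y, l' y = l y :=
    ⟨{ toFun := l, map_add' := hl.1, map_smul' := fun c y => hl.2 c y }, fun _ => rfl⟩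
  have h1 : l' (Polynomial.aeval Fm p x) =
      ∑ m ∈ Finset.range N, p.coeff m * l' ((Fm ^ m) x) := by
    rw [Polynomial.aeval_eq_sum_range' hN, LinearMap.sum_apply, map_sum]
    refine Finset.sum_congr rfl fun r _ => ?_
    rw [LinearMap.smul_apply, map_smul, smul_eq_mul]
  refine Eq.trans ?_ (h1.symm.trans (hl' _))
  refine Finset.sum_congr rfl fun r _ => ?_
  rw [hl', pow_iter hFm, hc]
  rfl

/-- Weil's polynomials kill the Frobenius. -/
lemma weil_aeval {Fm : Module.End (baseW T.W E).K ((baseW T.W E).H X)}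
    {φ₀ : (Def.coh T E X).H 0 → (Def.coh T E X).H 0} (hFm : ∀ x : (baseW T.W E).H X, Fm x = φ₀ x) {i : ℕ}
    {Q : Polynomial ℤ} (h : ∀ x ∈ (Def.coh T E X).gr 0 i, ∀ l, Def.IsLin (Def.coh T E X) l →
      ∑ m ∈ Finset.range (Q.natDegree + 1), (Q.coeff m : E) * l (φ₀^[m] x) = 0)
    {x : (baseW T.W E).H X} (hx : x ∈ (baseW T.W E).gr X i) : Polynomial.aeval Fm Q x = 0 := by
  rw [← Module.forall_dual_apply_eq_zero_iff (baseW T.W E).K]
  intro f
  obtain ⟨l, hl, hlf⟩ : ∃ l : (Def.coh T E X).H 0 → E, Def.IsLin (Def.coh T E X) l ∧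
      ∀ y : (baseW T.W E).H X, l y = f y :=
    ⟨fun y => f (show (baseW T.W E).H X from y), ⟨fun a b => map_add f _ _, fun c a =>
      map_smul f (show (baseW T.W E).K from c) (show (baseW T.W E).H X from a)⟩, fun _ => rfl⟩
  have h1 := sum_aeval hFm (Q.map (Int.castRingHom (baseW T.W E).K)) (N := Q.natDegree + 1)
    (Nat.lt_succ_of_le Polynomial.natDegree_map_le) (fun m => (Q.coeff m : E)) (fun m => by
      rw [Polynomial.coeff_map]; rfl) l hl x
  rw [aeval_int] at h1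
  exact (hlf _).symm.trans (h1.symm.trans (h x hx l hl))

lemma lin_zero {l : (Def.coh T E X).H 0 → E} (hl : Def.IsLin (Def.coh T E X) l) :
    l (0 : (baseW T.W E).H X) = 0 := by
  have h6 := hl.2 0 (show (Def.coh T E X).H 0 from (0 : HL T.W E X))
  rw [zero_mul] at h6
  refine Eq.trans ?_ h6
  exact congrArg l (zero_smul E (0 : HL T.W E X)).symm

lemma weil_sum {Fm : Module.End (baseW T.W E).K ((baseW T.W E).H X)}
    {φ₀ : (Def.coh T E X).H 0 → (Def.coh T E X).H 0} (hFm : ∀ x : (baseW T.W E).H X, Fm x = φ₀ x)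
    {Q : Polynomial ℤ} {x : (baseW T.W E).H X} (hx : Polynomial.aeval Fm Q x = 0)
    (l : (Def.coh T E X).H 0 → E) (hl : Def.IsLin (Def.coh T E X) l) :
    ∑ m ∈ Finset.range (Q.natDegree + 1), (Q.coeff m : E) * l (φ₀^[m] x) = 0 := by
  have h1 := sum_aeval hFm (Q.map (Int.castRingHom (baseW T.W E).K)) (N := Q.natDegree + 1)
    (Nat.lt_succ_of_le Polynomial.natDegree_map_le) (fun m => (Q.coeff m : E)) (fun m => by
      rw [Polynomial.coeff_map]; rfl) l hl x
  rw [aeval_int, hx, lin_zero hl] at h1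
  exact h1

lemma aeval_restrict {K V : Type} [Field K] [AddCommGroup V] [Module K V] {p : Submodule K V}
    {f : Module.End K V} {g : Module.End K p} (h : ∀ y : p, ((g y : p) : V) = f y)
    (R : Polynomial ℤ) (y : p) :
    ((Polynomial.aeval g R y : p) : V) = Polynomial.aeval f R (y : V) := by
  have hp : ∀ (r : ℕ) (y : p), (((g ^ r) y : p) : V) = (f ^ r) (y : V) := by
    intro r
    induction r with
    | zero => intro y; rfl
    | succ r ih =>
      intro y
      rw [pow_succ', pow_succ', Module.End.mul_apply, Module.End.mul_apply, h, ih]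
  rw [Polynomial.aeval_eq_sum_range, Polynomial.aeval_eq_sum_range, LinearMap.sum_apply,
    LinearMap.sum_apply, AddSubmonoidClass.coe_finset_sum]
  refine Finset.sum_congr rfl fun r _ => ?_
  rw [LinearMap.smul_apply, LinearMap.smul_apply, ← hp]
  rfl

/-- The semisimple part of the Frobenius is semisimple, with the same eigenvalues. -/
lemma semisimple_ss {Fm Fs : Module.End (baseW T.W E).K ((baseW T.W E).H X)} (hs : IsSs Fm Fs)
    (hgr : ∀ i, ∀ x ∈ (baseW T.W E).gr X i, Fm x ∈ (baseW T.W E).gr X i)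
    {φ₀ φ₀' : (Def.coh T E X).H 0 → (Def.coh T E X).H 0} (hFm : ∀ x : (baseW T.W E).H X, Fm x = φ₀ x)
    (hFs : ∀ x : (baseW T.W E).H X, Fs x = φ₀' x) (hw : ∀ i, ∃ Q, Def.Weil (Def.coh T E X) q φ₀ i Q) :
    Def.Semisimple (Def.coh T E X) q φ₀' := by
  have hfin : Module.Finite (baseW T.W E).K ((baseW T.W E).H X) := ((baseW T.W E).isPoincareAlgebra X).finite
  intro i
  obtain ⟨Q, hQ1, hQ2, hQ3⟩ := hw i
  obtain ⟨R, hR1, hR2, hR3, m, hR4⟩ := Pool.Agent.N615.HJ.j4 Q hQ1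
  refine ⟨R, ⟨hR1, fun y hy => ?_, fun x hx l hl => ?_⟩, hR2⟩
  · apply hQ2 y
    obtain ⟨A, hA⟩ := hR3
    rw [hA, map_mul, hy, zero_mul]
  · refine weil_sum hFs ?_ l hl
    obtain ⟨sp, h1, h2⟩ := ss_restrict hs ((baseW T.W E).gr X i) (hgr i)
    have h3 : Polynomial.aeval (Fm.restrict (hgr i)) Q = 0 := by
      apply LinearMap.ext
      intro y
      apply Subtype.ext
      rw [aeval_restrict (fun y => rfl) Q y]
      exact weil_aeval hFm hQ3 y.2
    have h5 := aeval_ss h1 hR4 h3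
    have h7 := aeval_restrict h2 R ⟨x, hx⟩
    rw [h5] at h7
    exact h7.symm

end Pool.Agent.N204.HJ
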